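import Pool.Agent.H53.SR.Defs
import Pool.Agent.H66.SLP.All

/-! CUT, PIE, VLE: pieces. -/

set_option autoImplicit false

open Finset

namespace Pool.Agent.H53.SR

open Pool.Agent.H66.SLP

theorem wt_pieces (w : ℕ → ℝ) (c : ℕ → ℕ) (k : ℕ) (hc : ∀ j < k, c j < c (j + 1)) :
    ∑ j ∈ range k, wt w (c j) (c (j + 1)) = wt w (c 0) (c k) := by
  induction k with
  | zero => simp [wt_self]
  | succ k ih =>
    rw [Finset.sum_range_succ, ih fun j hj => hc j (by omega)]
    exact wt_add w (pieces_mono (k := k) (fun j hj => hc j (by omega)) (Nat.zero_le _) le_rfl)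
      (hc k (by omega)).le

theorem pf_CUT : T_CUT := by
  intro w T a b hw hT hW
  have hhalf : ∀ A B, wt (fun x => w x / 2) A B = wt w A B / 2 := by
    intro A B
    unfold wt
    rw [Finset.sum_div]
  have hT0 : 0 < T := by linarith
  obtain ⟨k, c, hk, h0, hkb, hc⟩ := pf_CUTS (fun x => w x / 2) (wt w a b / (2 * T)) a b
    (fun x => ⟨by have := (hw x).1; positivity, by have := (hw x).2; linarith⟩)
    (by positivity) (by
      rw [hhalf, div_le_div_iff₀ (by positivity) (by norm_num)]
      nlinarith)
  refine ⟨k, c, hk, ?_, h0, hkb, ?_⟩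
  · have h1 := wt_pieces w c k fun j hj => (hc j hj).1
    rw [h0, hkb] at h1
    have h2 : (k : ℝ) * (wt w a b / T) ≤ ∑ j ∈ range k, wt w (c j) (c (j + 1)) := by
      have h3 : ∑ _j ∈ range k, wt w a b / T = (k : ℝ) * (wt w a b / T) := by
        rw [Finset.sum_const, card_range, nsmul_eq_mul]
      rw [← h3]
      refine Finset.sum_le_sum fun j hj => ?_
      have h4 := (hc j (mem_range.1 hj)).2.1
      rw [hhalf] at h4
      have h5 : wt w a b / (2 * T) = wt w a b / T / 2 := by
        rw [div_div, mul_comm]
      linarith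
    rw [h1] at h2
    have h6 : (k : ℝ) * (wt w a b / T) = (k / T) * wt w a b := by ring
    rw [h6] at h2
    have h7 : (k : ℝ) / T ≤ 1 := by
      by_contra h
      push Not at h
      nlinarith
    rwa [div_le_one hT0] at h7
  · intro j hj
    obtain ⟨h1, h2, h3⟩ := hc j hj
    refine ⟨h1, ?_⟩
    rw [hhalf] at h3
    have h5 : 2 * (wt w a b / (2 * T)) = wt w a b / T := by
      field_simp
    have h6 : 2 * wt w a b / T = 2 * (wt w a b / T) := by ring
    linarith

theorem pf_PIE : T_PIE := by
  intro ι _ _ k Q c s e p F hk hc hF hp hcov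
  have hmono := fun {i j : ℕ} (hij : i ≤ j) (hj : j ≤ k) => pieces_mono hc hij hj
  -- the family which meets the piece: it starts there, or it covers the first cell from outside
  have h1 : ∀ j ∈ range k, ∑ i ∈ F with s i < c (j + 1) ∧ c j < e i, p i ≤
      ∑ i ∈ F, (if c j ≤ s i ∧ s i < c (j + 1) then p i else 0) +
        (if j = 0 then 0 else 2 * (Q : ℝ)) := by
    intro j hj
    rw [mem_range] at hj
    have h2 : ∑ i ∈ F with s i < c (j + 1) ∧ c j < e i, p i ≤
        ∑ i ∈ F, (if c j ≤ s i ∧ s i < c (j + 1) then p i else 0) +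
        ∑ i ∈ F, (if s i < c j ∧ c j < e i then p i else 0) := by
      rw [Finset.sum_filter, ← Finset.sum_add_distrib]
      refine Finset.sum_le_sum fun i _ => ?_
      have := (hp i).1
      split_ifs with a1 a2 a3 a4 a5 a6 a7 <;> first | linarith | (exfalso; omega)
    refine h2.trans (add_le_add le_rfl ?_)
    split_ifs with hj0
    · subst hj0
      refine (Finset.sum_eq_zero fun i hi => ?_).le
      rw [if_neg]
      have := (hF i hi).2.1
      omega
    · have h3 : c 0 ≤ c j := hmono (Nat.zero_le _) hj.le
      have h4 : c j < c k := (hc j hj).trans_le (hmono hj le_rfl)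
      have h5 : (cov s e F (c j) : ℝ) = Q := by rw [hcov _ h3 h4]
      rw [cov_cast] at h5
      rw [← h5, Finset.mul_sum]
      refine Finset.sum_le_sum fun i _ => ?_
      have := (hp i).2
      split_ifs with a1 a2 a3 <;> first | linarith | (exfalso; omega)
  refine (Finset.sum_le_sum h1).trans ?_
  rw [Finset.sum_add_distrib, Finset.sum_comm]
  refine add_le_add ?_ ?_
  · refine Finset.sum_le_sum fun i hi => ?_
    have h6 := (sum_pieces c k (s i) hc).1
    have h7 : ∑ j ∈ range k, (if c j ≤ s i ∧ s i < c (j + 1) then p i else 0) =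
        p i * ((∑ j ∈ range k, (if c j ≤ s i ∧ s i < c (j + 1) then 1 else 0) : ℕ) : ℝ) := by
      push_cast
      rw [Finset.mul_sum]
      refine Finset.sum_congr rfl fun j _ => ?_
      split_ifs <;> simp
    rw [h7, h6]
    have := (hp i).1
    split_ifs <;> simp [this]
  · obtain ⟨k, rfl⟩ : ∃ k', k = k' + 1 := ⟨k - 1, by omega⟩
    rw [Finset.sum_range_succ']
    simp only [Nat.add_eq_zero_iff, one_ne_zero, and_false, if_false, if_true, Finset.sum_const,
      card_range, nsmul_eq_mul]
    push_cast
    linarith

theorem pf_VLE : T_VLE := by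
  intro ι _ _ Q a b s e p w F hab hw hse hp hpw hcov
  have h1 : ∑ i ∈ F with s i < b ∧ a < e i, p i ≤
      ∑ i ∈ F, wt w (max (s i) a) (min (e i) b) +
        (2 * (cov s e F a : ℝ) + 2 * (cov s e F (b - 1) : ℝ)) := by
    rw [cov_cast, cov_cast, Finset.mul_sum, Finset.mul_sum, ← Finset.sum_add_distrib,
      ← Finset.sum_add_distrib, Finset.sum_filter]
    refine Finset.sum_le_sum fun i hi => ?_
    have h2 := hp i
    have h3 := hse i hi
    have h4 := hpw i hi
    have h5 := wt_nonneg hw (max (s i) a) (min (e i) b)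
    by_cases h6 : s i < b ∧ a < e i
    · rw [if_pos h6]
      by_cases h7 : s i ≤ a
      · rw [if_pos (show s i ≤ a ∧ a < e i from ⟨h7, h6.2⟩)]
        split_ifs <;> linarith
      · by_cases h8 : b ≤ e i
        · rw [if_pos (show s i ≤ b - 1 ∧ b - 1 < e i by omega)]
          split_ifs <;> linarith
        · rw [max_eq_left (by omega), min_eq_left (by omega)]
          split_ifs <;> linarith
    · rw [if_neg h6]
      split_ifs <;> linarith
  rw [hcov a le_rfl hab, hcov (b - 1) (by omega) (by omega)] at h1
  refine h1.trans ?_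
  have h9 : ∑ i ∈ F, wt w (max (s i) a) (min (e i) b) = Q * wt w a b := by
    rw [sum_wt w (fun i => max (s i) a) (fun i => min (e i) b) F b fun i _ => min_le_right _ _,
      wt_ind w (le_refl b), Finset.mul_sum]
    refine Finset.sum_congr rfl fun x hx => ?_
    rw [mem_range] at hx
    split_ifs with h10
    · have h11 : cov (fun i => max (s i) a) (fun i => min (e i) b) F x = Q := by
        rw [← hcov x h10.1 h10.2]
        unfold cov
        congr 1
        ext i
        simp only [mem_filter]
        constructor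
        · rintro ⟨h1, h2, h3⟩
          exact ⟨h1, by omega, by omega⟩
        · rintro ⟨h1, h2, h3⟩
          exact ⟨h1, by omega, by omega⟩
      rw [h11]
      ring
    · have h11 : cov (fun i => max (s i) a) (fun i => min (e i) b) F x = 0 := by
        unfold cov
        rw [Finset.card_eq_zero, Finset.filter_eq_empty_iff]
        intro i _
        dsimp only
        omega
      rw [h11]
      simp
  rw [h9]
  linarith

end Pool.Agent.H53.SR
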