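import Pool.Agent.H66.SLP.Easy
import Pool.Agent.H66.SLP.Net

/-!
# The recursion into segments: definitions (MP_81fcf0_co)
-/

set_option autoImplicit false

open Finset

namespace Pool.Agent.H53.SR

open Pool.Agent.H66.SLP

/-- a family of gaps of the word `u`: the letter of a gap does not occur inside of it, and the gaps
of a letter are disjoint -/
structure Fam {Y : Type} (u : List Y) {ι : Type} (z : ι → Y) (s e : ι → ℕ) : Prop where
  pos : ∀ i, s i < e i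
  sep : ∀ i j, i ≠ j → z i = z j → e i ≤ s j ∨ e j ≤ s i
  occ : ∀ i k, s i ≤ k → k + 1 < e i → u[k]? ≠ some (z i)

/-- an instance: a family of gaps in `[a, b)` which covers every cell at least `M` times, at the
price `V` per layer -/
def Inst {Y : Type} (u : List Y) (p : Y → ℝ) (a b M : ℕ) (V : ℝ) : Prop :=
  ∃ (ι : Type) (_ : Fintype ι) (_ : DecidableEq ι) (z : ι → Y) (s e : ι → ℕ), Fam u z s e ∧
    (∀ i, a ≤ s i ∧ e i ≤ b) ∧ (∀ x, a ≤ x → x < b → M ≤ cov s e univ x) ∧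
    ∑ i, p (z i) ≤ M * V

/-- a segment: the words of the system `S` lead from the states `≥ a` to states `≥ b` -/
def Seg {Y : Type} (u : List Y) (p : Y → ℝ) (a b : ℕ) (S : RSys Y) : Prop :=
  (∀ i < S.F, p (S.ℓ i) ≤ S.τ (S.π i) - S.τ i) ∧
  ∀ l, S.Path l → ∀ g h, a ≤ g → h ≤ u.length → (l.map S.ℓ).Sublist ((u.take h).drop g) → b ≤ h

/-- a plan from `a` to `b`: a list of segments -/
inductive Plan {Y : Type} (u : List Y) (p : Y → ℝ) (G : RSys Y → Prop) :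
    ℕ → ℕ → List (RSys Y) → Prop
  | nil (a : ℕ) : Plan u p G a a []
  | cons {a b c : ℕ} {S : RSys Y} {L : List (RSys Y)} : Seg u p a b S → G S →
      Plan u p G b c L → Plan u p G a c (S :: L)

theorem Plan.append {Y : Type} {u : List Y} {p : Y → ℝ} {G : RSys Y → Prop} {a b c : ℕ}
    {L L' : List (RSys Y)} (h : Plan u p G a b L) (h' : Plan u p G b c L') :
    Plan u p G a c (L ++ L') := by
  induction h with
  | nil a => exact h'
  | cons h1 h2 _ ih => exact Plan.cons h1 h2 (ih h')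

theorem Plan.single {Y : Type} {u : List Y} {p : Y → ℝ} {G : RSys Y → Prop} {a b : ℕ}
    {S : RSys Y} (h : Seg u p a b S) (h' : G S) : Plan u p G a b [S] :=
  Plan.cons h h' (Plan.nil b)

theorem Plan.mono {Y : Type} {u : List Y} {p : Y → ℝ} {G G' : RSys Y → Prop} {a b : ℕ}
    {L : List (RSys Y)} (h : Plan u p G a b L) (hG : ∀ S, G S → G' S) : Plan u p G' a b L := by
  induction h with
  | nil a => exact Plan.nil a
  | cons h1 h2 _ ih => exact Plan.cons h1 (hG _ h2) ih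

theorem Plan.good {Y : Type} {u : List Y} {p : Y → ℝ} {G : RSys Y → Prop} {a b : ℕ}
    {L : List (RSys Y)} (h : Plan u p G a b L) : ∀ S ∈ L, G S ∧
      ∀ i < S.F, p (S.ℓ i) ≤ S.τ (S.π i) - S.τ i := by
  induction h with
  | nil a => simp
  | cons h1 h2 _ ih =>
    intro S hS
    rcases List.mem_cons.1 hS with rfl | hS
    · exact ⟨h2, h1.1⟩
    · exact ih S hS

/-- the greedy embedding of the words of a plan -/
theorem Plan.reach {Y : Type} {u : List Y} {p : Y → ℝ} {G : RSys Y → Prop} {a b : ℕ}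
    {L : List (RSys Y)} (h : Plan u p G a b L) : ∀ (vs : List (List Y)),
    List.Forall₂ (fun (S : RSys Y) v => ∃ l, S.Path l ∧ v = l.map S.ℓ) L vs →
    ∀ g, a ≤ g → g ≤ u.length → vs.flatten.Sublist (u.drop g) → b ≤ u.length := by
  induction h with
  | nil a =>
    intro vs hvs g hg hg' _
    omega
  | @cons a b c S L h1 _ _ ih =>
    intro vs hvs g hg hg' hs
    cases hvs with
    | @cons _ v _ vs hv hvs =>
      obtain ⟨l, hl, rfl⟩ := hv
      rw [List.flatten_cons, List.append_sublist_iff] at hs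
      obtain ⟨r1, r2, hr, hr1, hr2⟩ := hs
      have hlen : g + r1.length + r2.length = u.length := by
        have := congrArg List.length hr
        rw [List.length_drop, List.length_append] at this
        omega
      have e1 : (u.take (g + r1.length)).drop g = r1 := by
        rw [← List.take_drop, hr, List.take_left]
      have e2 : u.drop (g + r1.length) = r2 := by
        rw [← List.drop_drop, hr, List.drop_left]
      have h3 := h1.2 l hl g (g + r1.length) hg (by omega) (by rw [e1]; exact hr1)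
      exact ih vs hvs (g + r1.length) h3 (by omega) (by rw [e2]; exact hr2)

/-- LPC: the optimal family, with measure at most 2 per cell. -/
def T_LPC : Prop := ∀ (ι : Type) [Fintype ι] [DecidableEq ι] (a b Q M : ℕ) (s e : ι → ℕ)
  (p : ι → ℝ), (∀ i, s i < e i ∧ a ≤ s i ∧ e i ≤ b) → (∀ i, 0 < p i ∧ p i ≤ 2) → Q ≤ M →
  (∀ x, a ≤ x → x < b → M ≤ cov s e univ x) →
  ∃ (F : Finset ι) (w : ℕ → ℝ) (s' : ι → ℕ), (∀ x, 0 ≤ w x ∧ w x ≤ 2) ∧
    (∀ i ∈ F, s i ≤ s' i ∧ s' i < e i ∧ p i ≤ wt w (s' i) (e i)) ∧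
    (∀ x, a ≤ x → x < b → cov s' e F x = Q) ∧
    ((M : ℝ) - Q) * wt w a b ≤ ∑ i, p i - ∑ i ∈ F, p i

/-- CUT: pieces of bounded weight. -/
def T_CUT : Prop := ∀ (w : ℕ → ℝ) (T : ℝ) (a b : ℕ), (∀ x, 0 ≤ w x ∧ w x ≤ 2) → 1 ≤ T →
  0 < wt w a b → ∃ (k : ℕ) (c : ℕ → ℕ), 1 ≤ k ∧ (k : ℝ) ≤ T ∧ c 0 = a ∧ c k = b ∧
    ∀ j < k, c j < c (j + 1) ∧ wt w (c j) (c (j + 1)) ≤ 2 * wt w a b / T + 2

/-- PIE: the prices of the families which meet the pieces. -/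
def T_PIE : Prop := ∀ (ι : Type) [Fintype ι] [DecidableEq ι] (k Q : ℕ) (c : ℕ → ℕ)
  (s e : ι → ℕ) (p : ι → ℝ) (F : Finset ι), 1 ≤ k → (∀ j < k, c j < c (j + 1)) →
  (∀ i ∈ F, s i < e i ∧ c 0 ≤ s i ∧ e i ≤ c k) → (∀ i, 0 ≤ p i ∧ p i ≤ 2) →
  (∀ x, c 0 ≤ x → x < c k → cov s e F x = Q) →
  ∑ j ∈ range k, ∑ i ∈ F with s i < c (j + 1) ∧ c j < e i, p i ≤
    ∑ i ∈ F, p i + 2 * Q * ((k : ℝ) - 1)

/-- VLE: the price of the family which meets a piece is small if its weight is small. -/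
def T_VLE : Prop := ∀ (ι : Type) [Fintype ι] [DecidableEq ι] (Q a b : ℕ)
  (s e : ι → ℕ) (p : ι → ℝ) (w : ℕ → ℝ) (F : Finset ι), a < b → (∀ x, 0 ≤ w x) →
  (∀ i ∈ F, s i < e i) → (∀ i, 0 ≤ p i ∧ p i ≤ 2) → (∀ i ∈ F, p i ≤ wt w (s i) (e i)) →
  (∀ x, a ≤ x → x < b → cov s e F x = Q) →
  ∑ i ∈ F with s i < b ∧ a < e i, p i ≤ Q * wt w a b + 4 * Q

/-- LEV: one level of the recursion. -/
def T_LEV : Prop := ∀ (Y : Type) (u : List Y) (p : Y → ℝ), (∀ y, 1 ≤ p y ∧ p y ≤ 2) →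
  ∀ (a b Q T : ℕ) (V : ℝ), a < b → 1 ≤ Q → 2 ≤ T → Inst u p a b (T * Q) V →
  ∃ w : ℕ → ℝ, (∀ x, 0 ≤ w x) ∧ wt w a b ≤ 2 * V ∧
    (∀ α β, a ≤ α → α < β → β ≤ b → ∃ S : RSys Y, S.Q = Q ∧ S.W = wt w α β + 4 ∧
      Seg u p α β S) ∧
    (V < wt w a b → ∃ (a' b' : ℕ) (V' : ℝ), a ≤ a' ∧ a' < b' ∧ b' ≤ b ∧
      Inst u p a' b' Q V' ∧ V' ≤ 2 * wt w a b / T + 6 ∧
      wt w a b - wt w a' b' ≤ V - V' + 2)

/-- REC: the recursion. -/
def T_REC : Prop := ∀ (Y : Type) (u : List Y) (p : Y → ℝ), (∀ y, 1 ≤ p y ∧ p y ≤ 2) →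
  ∀ (t : ℕ) (T B : ℝ), 1 ≤ t → T = 2 ^ t → 1 ≤ B → ∀ (j m a b : ℕ) (V : ℝ), a < b →
  Inst u p a b (2 ^ m) V → V ≤ T * (T / 10) ^ j → 10 ^ j * (7 * B * T * V) ≤ 2 ^ m →
  ∃ L : List (RSys Y), Plan u p (fun S => 0 < S.W ∧ (∃ q : ℕ, S.Q = 2 ^ q ∧ q ≤ m) ∧
    B * (S.W + 1) ≤ S.Q) a b L ∧ L.length ≤ 2 * j + 1 ∧
    (L.map RSys.W).sum ≤ V + T + 4 + 10 * j

/-- INI: the first instance. -/
def T_INI : Prop := ∀ (Y : Type) [Fintype Y] [DecidableEq Y] (u : List Y) (p : Y → ℝ) (θ : ℝ),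
  (∀ y, p y * ((u.count y : ℝ) + 1) ≤ θ) → Inst u p 0 (u.length + 1) (Fintype.card Y) θ

end Pool.Agent.H53.SR
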