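import Pool.Agent.H53.SR.Defs

/-! INI: the gaps of the letters of a word. -/

set_option autoImplicit false

open Finset

namespace Pool.Agent.H53.SR

open Pool.Agent.H66.SLP

theorem card_le_cov {Y ι : Type} [Fintype Y] [Fintype ι] (z : ι → Y) (s e : ι → ℕ) (x : ℕ)
    (h : ∀ y, ∃ i, z i = y ∧ s i ≤ x ∧ x < e i) : Fintype.card Y ≤ cov s e univ x := by
  choose g hg using h
  unfold cov
  rw [← Finset.card_univ]
  refine Finset.card_le_card_of_injOn g ?_ ?_
  · intro y _
    rw [Finset.coe_filter]
    exact ⟨mem_univ _, (hg y).2⟩
  · intro y _ y' _ hyy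
    rw [← (hg y).1, ← (hg y').1, hyy]

theorem ini_fam {Y : Type} [Fintype Y] [DecidableEq Y] (u : List Y) :
    ∃ (ι : Type) (_ : Fintype ι) (_ : DecidableEq ι) (z : ι → Y) (s e : ι → ℕ), Fam u z s e ∧
      (∀ i, e i ≤ u.length + 1) ∧ (∀ y, ∃ i, z i = y ∧ e i = u.length + 1) ∧
      (∀ x < u.length + 1, Fintype.card Y ≤ cov s e univ x) ∧
      ∀ f : Y → ℝ, ∑ i, f (z i) = ∑ y, f y * ((u.count y : ℝ) + 1) := by
  induction u using List.reverseRecOn with
  | nil =>
    refine ⟨Y, inferInstance, inferInstance, id, fun _ => 0, fun _ => 1, ⟨?_, ?_, ?_⟩, ?_, ?_,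
      ?_, ?_⟩
    · intro _; norm_num
    · intro i j hij h; exact absurd h hij
    · intro i k _ hk
      omega
    · intro _; simp
    · intro y; exact ⟨y, rfl, by simp⟩
    · intro x hx
      exact card_le_cov id _ _ x fun y => ⟨y, rfl, by omega, by simpa using hx⟩
    · intro f
      simp
  | append_singleton u y₀ ih =>
    obtain ⟨ι, _, _, z, s, e, hfam, he, hlast, hcov, hsum⟩ := ih
    have hlen : (u ++ [y₀]).length = u.length + 1 := by simp
    have hlast' : ∀ y, ∃ i : Option ι, (i.elim y₀ z) = y ∧
        (i.elim (u.length + 1) s) ≤ u.length + 1 ∧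
        (i.elim (u.length + 2) fun i => if z i ≠ y₀ ∧ e i = u.length + 1 then u.length + 2
          else e i) = u.length + 2 := by
      intro y
      by_cases hy : y = y₀
      · exact ⟨none, hy.symm, le_rfl, rfl⟩
      · obtain ⟨i, hi1, hi2⟩ := hlast y
        refine ⟨some i, hi1, ?_, ?_⟩
        · have := hfam.pos i
          simp only [Option.elim_some]
          omega
        · simp only [Option.elim_some]
          rw [if_pos ⟨by rw [hi1]; exact hy, hi2⟩]
    refine ⟨Option ι, inferInstance, inferInstance, fun i => i.elim y₀ z,
      fun i => i.elim (u.length + 1) s,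
      fun i => i.elim (u.length + 2) fun i => if z i ≠ y₀ ∧ e i = u.length + 1 then u.length + 2
        else e i, ⟨?_, ?_, ?_⟩, ?_, ?_, ?_, ?_⟩
    · rintro (_ | i)
      · simp
      · have := hfam.pos i
        have := he i
        simp only [Option.elim_some]
        split_ifs <;> omega
    · rintro (_ | i) (_ | j) hij hz
      · exact absurd rfl hij
      · right
        simp only [Option.elim_none, Option.elim_some] at hz ⊢
        rw [if_neg (fun h => h.1 hz.symm)]
        exact he j
      · left
        simp only [Option.elim_none, Option.elim_some] at hz ⊢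
        rw [if_neg (fun h => h.1 hz)]
        exact he i
      · simp only [Option.elim_some] at hz ⊢
        have h1 := hfam.sep i j (fun h => hij (by rw [h])) hz
        have h2 := hfam.pos i
        have h3 := hfam.pos j
        have h4 := he i
        have h5 := he j
        split_ifs <;> omega
    · rintro (_ | i) k hk1 hk2
      · simp only [Option.elim_none] at hk1 hk2
        omega
      · simp only [Option.elim_some] at hk1 hk2 ⊢
        rcases lt_trichotomy k u.length with hk | hk | hk
        · rw [List.getElem?_append_left hk]
          refine hfam.occ i k hk1 ?_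
          split_ifs at hk2 with h1
          · omega
          · exact hk2
        · subst hk
          rw [List.getElem?_append_right le_rfl, Nat.sub_self]
          simp only [List.getElem?_cons_zero, ne_eq, Option.some.injEq]
          split_ifs at hk2 with h1
          · exact fun h => h1.1 h.symm
          · have := he i
            omega
        · rw [List.getElem?_eq_none (by omega)]
          simp
    · rintro (_ | i)
      · simp
      · have := he i
        simp only [Option.elim_some]
        split_ifs <;> omega
    · intro y
      obtain ⟨i, h1, _, h2⟩ := hlast' y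
      exact ⟨i, h1, by rw [hlen]; exact h2⟩
    · intro x hx
      rw [hlen] at hx
      rcases Nat.lt_succ_iff_lt_or_eq.1 hx with hx | hx
      · refine (hcov x hx).trans ?_
        unfold cov
        refine Finset.card_le_card_of_injOn some ?_ ?_
        · intro i hi
          rw [Finset.coe_filter] at hi ⊢
          obtain ⟨_, h1, h2⟩ := hi
          refine ⟨mem_univ _, ?_⟩
          simp only [Option.elim_some]
          refine ⟨h1, ?_⟩
          split_ifs <;> omega
        · intro i _ j _ hij
          exact Option.some.inj hij
      · refine card_le_cov (fun i : Option ι => i.elim y₀ z) _ _ x fun y => ?_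
        obtain ⟨i, h1, h2, h3⟩ := hlast' y
        exact ⟨i, h1, by rw [hx]; exact h2, by rw [hx]; exact h3.symm ▸ (by omega)⟩
    · intro f
      rw [Fintype.sum_option]
      simp only [Option.elim_none, Option.elim_some]
      rw [hsum f]
      have h1 : ∀ y, f y * (((u ++ [y₀]).count y : ℝ) + 1) =
          f y * ((u.count y : ℝ) + 1) + (if y = y₀ then f y else 0) := by
        intro y
        rw [List.count_append, List.count_singleton]
        by_cases hy : y = y₀
        · subst hy
          simp
          ring
        · have : (y₀ == y) = false := by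
            simp only [beq_eq_false_iff_ne]
            exact fun h => hy h.symm
          simp [hy, this]
      rw [Finset.sum_congr rfl fun y _ => h1 y, Finset.sum_add_distrib, Finset.sum_ite_eq']
      simp only [mem_univ, if_true]
      ring

theorem pf_INI : T_INI := by
  intro Y _ _ u p θ h
  obtain ⟨ι, h1, h2, z, s, e, hfam, he, _, hcov, hsum⟩ := ini_fam u
  refine ⟨ι, h1, h2, z, s, e, hfam, fun i => ⟨Nat.zero_le _, he i⟩, fun x _ hx => hcov x hx, ?_⟩
  rw [hsum p]
  refine (Finset.sum_le_sum fun y _ => h y).trans ?_
  rw [Finset.sum_const, Finset.card_univ, nsmul_eq_mul]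

end Pool.Agent.H53.SR
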