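import Pool.Agent.H53.SR.LEV

/-! REC: the recursion. -/

set_option autoImplicit false

open Finset

namespace Pool.Agent.H53.SR

open Pool.Agent.H66.SLP

theorem inst_one {Y : Type} {u : List Y} {p : Y → ℝ} (hp : ∀ y, 1 ≤ p y ∧ p y ≤ 2)
    {a b M : ℕ} {V : ℝ} (hab : a < b) (hM : 1 ≤ M) (h : Inst u p a b M V) : 1 ≤ V := by
  obtain ⟨ι, _, _, z, s, e, hfam, hse, hcov, hV⟩ := h
  have h1 : (M : ℝ) ≤ ∑ i, p (z i) := by
    have h2 : M ≤ Fintype.card ι := (hcov a le_rfl hab).trans (Finset.card_le_univ _)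
    have h3 : (M : ℝ) ≤ ∑ _i : ι, (1 : ℝ) := by
      simp only [Finset.sum_const, Finset.card_univ, nsmul_eq_mul, mul_one]
      exact_mod_cast h2
    exact h3.trans (Finset.sum_le_sum fun i _ => (hp (z i)).1)
  have h4 : (0 : ℝ) < M := by exact_mod_cast hM
  have h5 : (M : ℝ) * 1 ≤ M * V := by linarith
  exact le_of_mul_le_mul_left h5 h4

theorem wt_sub {w : ℕ → ℝ} (hw : ∀ x, 0 ≤ w x) {a α β b : ℕ} (h1 : a ≤ α) (h2 : α ≤ β)
    (h3 : β ≤ b) : wt w α β ≤ wt w a b := by
  have e1 := wt_add w h1 (h2.trans h3)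
  have e2 := wt_add w h2 h3
  have e3 := wt_nonneg hw a α
  have e4 := wt_nonneg hw β b
  linarith

/-- the part of a plan on an interval which may be empty -/
theorem side_plan {Y : Type} {u : List Y} {p : Y → ℝ} {G : RSys Y → Prop} {w : ℕ → ℝ}
    {Q a b α β : ℕ} (hw : ∀ x, 0 ≤ w x) (hα : a ≤ α) (hαβ : α ≤ β) (hβ : β ≤ b)
    (hseg : ∀ α β, a ≤ α → α < β → β ≤ b → ∃ S : RSys Y, S.Q = Q ∧ S.W = wt w α β + 4 ∧
      Seg u p α β S)
    (hG : ∀ S : RSys Y, S.Q = Q → 0 < S.W → S.W ≤ wt w a b + 4 → G S) :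
    ∃ L : List (RSys Y), Plan u p G α β L ∧ L.length ≤ 1 ∧
      (L.map RSys.W).sum ≤ wt w α β + 4 := by
  rcases hαβ.eq_or_lt with h | h
  · subst h
    refine ⟨[], Plan.nil _, by simp, ?_⟩
    have := wt_nonneg hw α α
    simp only [List.map_nil, List.sum_nil]
    linarith
  · obtain ⟨S, h1, h2, h3⟩ := hseg α β hα h hβ
    have h4 := wt_nonneg hw α β
    have h5 := wt_sub hw hα h.le hβ
    exact ⟨[S], Plan.single h3 (hG S h1 (by linarith) (by linarith)), by simp, by simp [h2]⟩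

theorem pf_REC : T_REC := by
  intro Y u p hp t T B ht hT hB j
  have hT2 : (2 : ℝ) ≤ T := by
    rw [hT]
    calc (2 : ℝ) = 2 ^ 1 := by norm_num
      _ ≤ 2 ^ t := pow_le_pow_right₀ (by norm_num) ht
  have hT0 : 0 < T := by linarith
  induction j with
  | zero =>
    intro m a b V hab hI hVT hM
    have hV1 := inst_one hp hab Nat.one_le_two_pow hI
    rw [pow_zero, mul_one] at hVT
    rw [pow_zero, one_mul] at hM
    have htm : t ≤ m := by
      have h1 : (2 : ℝ) ^ t ≤ 2 ^ m := by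
        rw [← hT]
        have h2 : T * 1 ≤ T * (7 * (B * V)) := mul_le_mul_of_nonneg_left (by nlinarith) hT0.le
        nlinarith
      exact (pow_le_pow_iff_right₀ (by norm_num : (1 : ℝ) < 2)).1 h1
    have hmt : 2 ^ t * 2 ^ (m - t) = 2 ^ m := by
      rw [← pow_add, Nat.add_sub_cancel' htm]
    have hQr : T * (2 : ℝ) ^ (m - t) = 2 ^ m := by
      rw [hT, ← pow_add, Nat.add_sub_cancel' htm]
    have hBV : 7 * (B * V) ≤ (2 : ℝ) ^ (m - t) := by
      have h3 : T * (7 * (B * V)) ≤ T * 2 ^ (m - t) := by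
        rw [hQr]
        linarith
      exact le_of_mul_le_mul_left h3 hT0
    obtain ⟨w, hw, hW, hseg, -⟩ := pf_LEV Y u p hp a b (2 ^ (m - t)) (2 ^ t) V hab
      Nat.one_le_two_pow (by
        calc 2 = 2 ^ 1 := by norm_num
          _ ≤ 2 ^ t := Nat.pow_le_pow_right (by norm_num) ht) (by rw [hmt]; exact hI)
    obtain ⟨L, hL1, hL2, hL3⟩ := side_plan (G := fun S => 0 < S.W ∧ (∃ q : ℕ, S.Q = 2 ^ q ∧
        q ≤ m) ∧ B * (S.W + 1) ≤ S.Q) hw le_rfl hab.le le_rfl hseg (by
      intro S h1 h2 h3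
      refine ⟨h2, ⟨m - t, h1, by omega⟩, ?_⟩
      rw [h1]
      push_cast
      refine le_trans ?_ hBV
      have h4 : S.W + 1 ≤ 7 * V := by linarith
      nlinarith)
    refine ⟨L, hL1, by omega, ?_⟩
    push_cast
    linarith
  | succ j ih =>
    intro m a b V hab hI hVT hM
    have hV1 := inst_one hp hab Nat.one_le_two_pow hI
    have hBV1 : 1 ≤ B * V := by nlinarith
    have h10 : (1 : ℝ) ≤ 10 ^ (j + 1) := one_le_pow₀ (by norm_num)
    have hM' : 7 * B * T * V ≤ 2 ^ m := by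
      refine le_trans ?_ hM
      have : 0 ≤ 7 * B * T * V := by positivity
      nlinarith
    have htm : t ≤ m := by
      have h1 : (2 : ℝ) ^ t ≤ 2 ^ m := by
        rw [← hT]
        have h2 : T * 1 ≤ T * (7 * (B * V)) := mul_le_mul_of_nonneg_left (by linarith) hT0.le
        nlinarith
      exact (pow_le_pow_iff_right₀ (by norm_num : (1 : ℝ) < 2)).1 h1
    have hmt : 2 ^ t * 2 ^ (m - t) = 2 ^ m := by
      rw [← pow_add, Nat.add_sub_cancel' htm]
    have hQr : T * (2 : ℝ) ^ (m - t) = 2 ^ m := by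
      rw [hT, ← pow_add, Nat.add_sub_cancel' htm]
    have hBV : 10 ^ (j + 1) * (7 * (B * V)) ≤ (2 : ℝ) ^ (m - t) := by
      have h3 : T * (10 ^ (j + 1) * (7 * (B * V))) ≤ T * 2 ^ (m - t) := by
        rw [hQr]
        refine le_trans (le_of_eq ?_) hM
        ring
      exact le_of_mul_le_mul_left h3 hT0
    have hBV' : 7 * (B * V) ≤ (2 : ℝ) ^ (m - t) := by
      refine le_trans ?_ hBV
      have : 0 ≤ 7 * (B * V) := by positivity
      nlinarith
    obtain ⟨w, hw, hW, hseg, hlev⟩ := pf_LEV Y u p hp a b (2 ^ (m - t)) (2 ^ t) V hab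
      Nat.one_le_two_pow (by
        calc 2 = 2 ^ 1 := by norm_num
          _ ≤ 2 ^ t := Nat.pow_le_pow_right (by norm_num) ht) (by rw [hmt]; exact hI)
    have hG : ∀ S : RSys Y, S.Q = 2 ^ (m - t) → 0 < S.W → S.W ≤ wt w a b + 4 →
        (0 < S.W ∧ (∃ q : ℕ, S.Q = 2 ^ q ∧ q ≤ m) ∧ B * (S.W + 1) ≤ S.Q) := by
      intro S h1 h2 h3
      refine ⟨h2, ⟨m - t, h1, by omega⟩, ?_⟩
      rw [h1]
      push_cast
      refine le_trans ?_ hBV'
      have h4 : S.W + 1 ≤ 7 * V := by linarith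
      nlinarith
    by_cases hcase : wt w a b ≤ V + T
    · obtain ⟨L, hL1, hL2, hL3⟩ := side_plan (G := fun S => 0 < S.W ∧ (∃ q : ℕ, S.Q = 2 ^ q ∧
        q ≤ m) ∧ B * (S.W + 1) ≤ S.Q) hw le_rfl hab.le le_rfl hseg hG
      refine ⟨L, hL1, by omega, ?_⟩
      have : (0 : ℝ) ≤ 10 * ((j + 1 : ℕ) : ℝ) := by positivity
      linarith
    · push Not at hcase
      obtain ⟨a', b', V', ha', hab', hb', hI', hV', hdiff⟩ := hlev (by linarith)
      have hVT' : T < V := by linarith
      have hTc : ((2 ^ t : ℕ) : ℝ) = T := by rw [hT]; push_cast; rfl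
      rw [hTc] at hV'
      have hV10 : V' ≤ 10 * V / T := by
        have h5 : 2 * wt w a b / T ≤ 4 * V / T := by
          rw [div_le_div_iff_of_pos_right hT0]
          linarith
        have h6 : 6 ≤ 6 * V / T := by
          rw [le_div_iff₀ hT0]
          linarith
        have h7 : 10 * V / T = 4 * V / T + 6 * V / T := by ring
        linarith
      obtain ⟨L, hL1, hL2, hL3⟩ := ih (m - t) a' b' V' hab' hI' (by
          refine hV10.trans ?_
          rw [div_le_iff₀ hT0]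
          have h8 : T * (T / 10) ^ (j + 1) * 10 = T * (T / 10) ^ j * T := by
            rw [pow_succ]
            ring
          linarith) (by
          refine le_trans ?_ hBV
          have h9 : B * T * V' ≤ 10 * (B * V) := by
            have h10 : B * T * V' ≤ B * T * (10 * V / T) :=
              mul_le_mul_of_nonneg_left hV10 (by positivity)
            have h11 : B * T * (10 * V / T) = 10 * (B * V) := by
              field_simp
            linarith
          have h12 : (10 : ℝ) ^ (j + 1) * (7 * (B * V)) = 10 ^ j * (7 * (10 * (B * V))) := by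
            rw [pow_succ]
            ring
          rw [h12]
          refine mul_le_mul_of_nonneg_left ?_ (by positivity)
          linarith)
      obtain ⟨L1, hA1, hA2, hA3⟩ := side_plan (G := fun S => 0 < S.W ∧ (∃ q : ℕ, S.Q = 2 ^ q ∧
        q ≤ m) ∧ B * (S.W + 1) ≤ S.Q) hw le_rfl ha' (hab'.le.trans hb') hseg hG
      obtain ⟨L2, hB1, hB2, hB3⟩ := side_plan (G := fun S => 0 < S.W ∧ (∃ q : ℕ, S.Q = 2 ^ q ∧
        q ≤ m) ∧ B * (S.W + 1) ≤ S.Q) hw (ha'.trans hab'.le) hb' le_rfl hseg hG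
      have hL1' := hL1.mono (G' := fun S => 0 < S.W ∧ (∃ q : ℕ, S.Q = 2 ^ q ∧
        q ≤ m) ∧ B * (S.W + 1) ≤ S.Q) (by
          rintro S ⟨h1, ⟨q, h2, h3⟩, h4⟩
          exact ⟨h1, ⟨q, h2, by omega⟩, h4⟩)
      refine ⟨L1 ++ (L ++ L2), hA1.append (hL1'.append hB1), ?_, ?_⟩
      · rw [List.length_append, List.length_append]
        omega
      · rw [List.map_append, List.map_append, List.sum_append, List.sum_append]
        have e1 := wt_add w ha' (hab'.le.trans hb')
        have e2 := wt_add w hab'.le hb'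
        push_cast
        linarith

end Pool.Agent.H53.SR
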