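import Pool.Agent.H53.SR.NUM
import Pool.Agent.H53.SR.REC
import Pool.Agent.H53.SR.INI
import Pool.Agent.H53.SS.Targets
import Pool.Agent.H52.FT.Basic

/-! FIN: the weighted greedy lemma. -/

set_option autoImplicit false

open Finset

namespace Pool.Agent.H53.SR

open Pool.Agent.H66.SLP
open Pool.Agent.H52.FT (Wd)

/-- the word of the letters of `Y` -/
def restr {α : Type} [DecidableEq α] (Y : Finset α) (w : List α) : List {x // x ∈ Y} :=
  w.filterMap fun x => if h : x ∈ Y then some ⟨x, h⟩ else none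

theorem restr_count {α : Type} [DecidableEq α] (Y : Finset α) (w : List α) (y : {x // x ∈ Y}) :
    @List.count {x // x ∈ Y} instBEqOfDecidableEq y (restr Y w) = w.count y.1 := by
  induction w with
  | nil => rfl
  | cons a w ih =>
    unfold restr at ih ⊢
    by_cases h : a ∈ Y
    · rw [List.filterMap_cons_some (b := (⟨a, h⟩ : {x // x ∈ Y})) (by rw [dif_pos h]),
        @List.count_cons {x // x ∈ Y} instBEqOfDecidableEq, List.count_cons, ih]
      congr 1
      by_cases h1 : a = y.1
      · subst h1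
        simp
      · rw [if_neg (by
          intro h2
          exact h1 (congrArg Subtype.val (eq_of_beq h2))), if_neg (by
          intro h2
          exact h1 (eq_of_beq h2))]
    · rw [List.filterMap_cons_none (by rw [dif_neg h]), ih, List.count_cons, if_neg, add_zero]
      intro h1
      apply h
      rw [beq_iff_eq.1 h1]
      exact y.2

theorem restr_sublist {α : Type} [DecidableEq α] (Y : Finset α) (w : List α)
    (L : List {x // x ∈ Y}) (h : (L.map Subtype.val).Sublist w) : L.Sublist (restr Y w) := by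
  have h1 := h.filterMap fun x => if h : x ∈ Y then some (⟨x, h⟩ : {x // x ∈ Y}) else none
  have h2 : (L.map Subtype.val).filterMap (fun x => if h : x ∈ Y then
      some (⟨x, h⟩ : {x // x ∈ Y}) else none) = L := by
    rw [List.filterMap_map]
    have h3 : ((fun x => if h : x ∈ Y then some (⟨x, h⟩ : {x // x ∈ Y}) else none) ∘
        Subtype.val) = (some : {x // x ∈ Y} → Option {x // x ∈ Y}) := by
      funext y
      simp
    rw [h3, List.filterMap_some]
  rw [h2] at h1
  exact h1

theorem cost_plan {Y : Type} {p : Y → ℝ} (D : ℝ) : ∀ (L : List (RSys Y)) (vs : List (List Y)),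
    (∀ S ∈ L, ∀ i < S.F, p (S.ℓ i) ≤ S.τ (S.π i) - S.τ i) →
    List.Forall₂ (fun (S : RSys Y) v => ∃ l, S.Path l ∧ S.ovl l ≤ D ∧ v = l.map S.ℓ) L vs →
    (vs.flatten.map p).sum ≤ (L.map RSys.W).sum + L.length * D
  | [], vs, _, h => by
    cases h
    simp
  | S :: L, vs, hp, h => by
    cases h with
    | @cons _ v _ vs hv hvs =>
      obtain ⟨l, hl, hovl, rfl⟩ := hv
      have ih := cost_plan D L vs (fun S' hS' => hp S' (List.mem_cons_of_mem _ hS')) hvs
      have h1 : ((l.map S.ℓ).map p).sum ≤ (l.map fun i => S.τ (S.π i) - S.τ i).sum := by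
        rw [List.map_map]
        refine List.sum_le_sum fun i hi => ?_
        exact hp S List.mem_cons_self i (hl.1 i hi)
      rw [(Pool.Agent.H66.SLP.cost Y S l hl).1] at h1
      rw [List.flatten_cons, List.map_append, List.sum_append, List.map_cons, List.sum_cons,
        List.length_cons]
      push_cast
      linarith

theorem pf_WGT (hMain : T_MAIN) : Pool.Agent.H53.SS.T_WGT := by
  intro ε hε
  obtain ⟨δ, J, hδ, hnum⟩ := pf_NUM ε hε
  choose Cf hCf using fun R => hMain δ R hδ
  obtain ⟨C, hC1, hC⟩ := hnum Cf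
  refine ⟨C, hC1, ?_⟩
  intro α _ Y p w θ hp hθ hY hlight
  obtain ⟨n, T, B, t, m, hn, ht, hT, hB, hCB, hθT, hm1, hm2, hm3, hsum, hcost⟩ := hC θ hθ
  -- restriction to `2 ^ m` letters
  obtain ⟨Y₀, hY₀, hcard⟩ := Finset.exists_subset_card_eq (s := Y) (n := 2 ^ m) (by
    have h1 : ((2 ^ m : ℕ) : ℝ) ≤ Y.card := by
      push_cast
      exact hm2.trans hY
    exact_mod_cast h1)
  have hI : Inst (restr Y₀ w) (fun y : {x // x ∈ Y₀} => p y.1) 0 ((restr Y₀ w).length + 1)
      (2 ^ m) θ := by
    have h1 := pf_INI {x // x ∈ Y₀} (restr Y₀ w) (fun y => p y.1) θ fun y => by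
      rw [restr_count]
      exact hlight y.1 (hY₀ y.2)
    rwa [Fintype.card_coe, hcard] at h1
  have hp' : ∀ y : {x // x ∈ Y₀}, 1 ≤ p y.1 ∧ p y.1 ≤ 2 := fun y => hp y.1 (hY₀ y.2)
  obtain ⟨L, hplan, hlen, hW⟩ := pf_REC {x // x ∈ Y₀} (restr Y₀ w) (fun y => p y.1) hp' t T B ht
    hT hB J m 0 ((restr Y₀ w).length + 1) θ (Nat.succ_pos _) hI hθT hm1
  have hgood := hplan.good
  have hWn : ∀ S ∈ L, S.W ≤ n := by
    intro S hS
    have h1 : S.W ≤ (L.map RSys.W).sum :=
      List.single_le_sum (by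
        intro x hx
        obtain ⟨S', hS', rfl⟩ := List.mem_map.1 hx
        exact (hgood S' hS').1.1.le) _ (List.mem_map.2 ⟨S, hS, rfl⟩)
    linarith
  have hn0 : 0 < n ^ δ := Real.rpow_pos_of_pos (by linarith) δ
  obtain ⟨l, hl1, hl2, hl3⟩ := hCf L.length n hn {x // x ∈ Y₀} (fun r => L.get r)
    (fun r => (hgood _ (L.get_mem r)).1.1) (fun r => hWn _ (L.get_mem r))
    (fun r => by
      obtain ⟨q, hq, _⟩ := (hgood _ (L.get_mem r)).1.2.1
      exact ⟨q, hq⟩)
    (fun r => by
      obtain ⟨q, hq, hqm⟩ := (hgood _ (L.get_mem r)).1.2.1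
      rw [hq]
      push_cast
      exact (pow_le_pow_right₀ (by norm_num) hqm).trans hm3)
    (fun r => by
      have h1 := (hgood _ (L.get_mem r)).1.2.2
      have h2 := (hgood _ (L.get_mem r)).1.1
      have h3 := hCB L.length hlen
      refine le_trans ?_ h1
      have h4 : Cf L.length * ((L.get r).W + 1) * n ^ δ =
          Cf L.length * n ^ δ * ((L.get r).W + 1) := by ring
      rw [h4]
      exact mul_le_mul_of_nonneg_right h3 (by linarith))
  set vs : List (List {x // x ∈ Y₀}) := List.ofFn fun r => (l r).map (L.get r).ℓ with hvs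
  have hF2 : List.Forall₂ (fun (S : RSys {x // x ∈ Y₀}) v => ∃ l, S.Path l ∧
      S.ovl l ≤ Cf L.length ∧ v = l.map S.ℓ) L vs := by
    rw [List.forall₂_iff_get]
    refine ⟨by simp [hvs], ?_⟩
    intro i h1 h2
    refine ⟨l ⟨i, h1⟩, hl1 _, hl3 _, ?_⟩
    simp [hvs]
  refine ⟨vs.flatten.map Subtype.val, ⟨?_, ?_⟩, ?_, ?_⟩
  · exact hl2.map Subtype.val_injective
  · intro z hz
    obtain ⟨y, _, rfl⟩ := List.mem_map.1 hz
    exact hY₀ y.2
  · intro hs
    have h1 := restr_sublist Y₀ w _ hs
    have h2 := hplan.reach vs (hF2.imp fun S v h => by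
      obtain ⟨l, h1, _, h2⟩ := h
      exact ⟨l, h1, h2⟩) 0 le_rfl (Nat.zero_le _) (by simpa using h1)
    omega
  · have h1 := cost_plan (p := fun y : {x // x ∈ Y₀} => p y.1) (Cf L.length) L vs
      (fun S hS => (hgood S hS).2) hF2
    have h2 : Pool.Agent.H52.FT.cost p (vs.flatten.map Subtype.val) =
        (vs.flatten.map fun y : {x // x ∈ Y₀} => p y.1).sum := by
      unfold Pool.Agent.H52.FT.cost
      rw [List.map_map]
      rfl
    rw [h2]
    have h3 := hcost L.length hlen
    linarith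

end Pool.Agent.H53.SR
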