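import Pool.Agent.H53.SR.FIN
import Pool.Agent.H53.SS.Red
import Pool.Agent.H52.FT.Words

/-!
# The lower bound `n² - C n^(1 + ε)` for universal words, from the theorem on rank systems
-/

set_option autoImplicit false

namespace Pool.Agent.H53.SR

open Pool.Agent.H52.FT Pool.Agent.H52.FT.Words

/-- the lower bound for universal words -/
theorem lower_eps (hMain : Pool.Agent.H66.SLP.T_MAIN) (ε : ℝ) (hε : 0 < ε) : ∃ C : ℝ, 0 < C ∧
    ∀ (n : ℕ) (w : List (Fin n)), (∀ σ : Equiv.Perm (Fin n), (List.ofFn σ).Sublist w) →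
      (n : ℝ) ^ 2 - C * (n : ℝ) ^ (1 + ε) ≤ w.length := by
  obtain ⟨C, hC, h⟩ := Pool.Agent.H53.SS.fie (pf_WGT hMain) ε hε
  refine ⟨C, hC, fun n w hw => ?_⟩
  rcases Nat.eq_zero_or_pos n with h0 | hn
  · have h1 : ((n : ℕ) : ℝ) = 0 := by exact_mod_cast h0
    rw [h1, Real.zero_rpow (by positivity)]
    simp
  · have h1 := h (Fin n) Finset.univ w (by rw [Finset.card_univ, Fintype.card_fin]; exact hn)
      (uni_of_universal hw)
    rwa [tot_univ, Finset.card_univ, Fintype.card_fin] at h1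

end Pool.Agent.H53.SR
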