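import Pool.Agent.H53.SR.LPC
import Pool.Agent.H53.SR.CUT

/-! LEV: one level of the recursion. -/

set_option autoImplicit false

open Finset

namespace Pool.Agent.H53.SR

open Pool.Agent.H66.SLP

/-- a best piece -/
theorem best_piece (k : ℕ) (f g : ℕ → ℝ) (T Q W V P : ℝ) (hk : 1 ≤ k) (hkT : (k : ℝ) ≤ T)
    (hQ : 0 < Q) (hWV : V < W) (hf : ∑ j ∈ range k, f j = W)
    (hg : ∑ j ∈ range k, g j ≤ P + 2 * Q * ((k : ℝ) - 1))
    (hP : (T * Q - Q) * W ≤ T * Q * V - P) :
    ∃ j < k, Q * (W - V - 2) ≤ Q * f j - g j := by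
  by_contra h
  push Not at h
  have h1 : ∑ j ∈ range k, (Q * f j - g j) < ∑ _j ∈ range k, Q * (W - V - 2) :=
    Finset.sum_lt_sum_of_nonempty (by rw [Finset.nonempty_range_iff]; omega)
      fun j hj => h j (mem_range.1 hj)
  rw [Finset.sum_sub_distrib, ← Finset.mul_sum, hf, Finset.sum_const, card_range,
    nsmul_eq_mul] at h1
  have h2 : (k : ℝ) * (Q * (W - V)) ≤ T * (Q * (W - V)) :=
    mul_le_mul_of_nonneg_right hkT (by have : 0 < W - V := by linarith
                                       positivity)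
  nlinarith

theorem pf_LEV : T_LEV := by
  intro Y u p hp a b Q T V hab hQ hT hI
  obtain ⟨ι, _, _, z, s, e, hfam, hse, hcov, hV⟩ := hI
  have hQT : Q ≤ T * Q := Nat.le_mul_of_pos_left Q (by omega)
  obtain ⟨F, w, s', hw, hF, hcovF, hdual⟩ := pf_LPC ι a b Q (T * Q) s e (fun i => p (z i))
    (fun i => ⟨hfam.pos i, hse i⟩) (fun i => ⟨by linarith [(hp (z i)).1], (hp (z i)).2⟩)
    hQT hcov
  have hQ0 : (0 : ℝ) < Q := by exact_mod_cast hQ
  have hT2 : (2 : ℝ) ≤ T := by exact_mod_cast hT
  have hP0 : 0 ≤ ∑ i ∈ F, p (z i) := Finset.sum_nonneg fun i _ => by linarith [(hp (z i)).1]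
  have hA0 : 0 ≤ ∑ i, p (z i) := Finset.sum_nonneg fun i _ => by linarith [(hp (z i)).1]
  push_cast at hV hdual
  have hd : ((T : ℝ) * Q - Q) * wt w a b ≤ T * Q * V - ∑ i ∈ F, p (z i) := by linarith
  have hV0 : 0 ≤ V := by
    by_contra h
    push Not at h
    have : (T : ℝ) * Q * V < 0 := mul_neg_of_pos_of_neg (by positivity) h
    linarith
  have hw0 : ∀ x, 0 ≤ w x := fun x => (hw x).1
  refine ⟨w, hw0, ?_, ?_, ?_⟩
  · have h1 : ((T : ℝ) - 1) * Q * wt w a b ≤ ((T : ℝ) - 1) * Q * (2 * V) := by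
      have h2 : (T : ℝ) * (Q * V) ≤ (2 * ((T : ℝ) - 1)) * (Q * V) :=
        mul_le_mul_of_nonneg_right (by linarith) (by positivity)
      nlinarith
    refine le_of_mul_le_mul_left h1 ?_
    have : (0 : ℝ) < T - 1 := by linarith
    positivity
  · intro α β hα hαβ hβ
    obtain ⟨S, hSQ, hSW, _, hSp, hSl⟩ := real Y u p hp {i // i ∈ F} (fun i => z i.1)
      (fun i => s' i.1) (fun i => e i.1) w α β Q hQ hαβ hw0 (fun i => (hF i.1 i.2).2.1)
      (fun i j hij hz => by
        have h1 := hfam.sep i.1 j.1 (fun h => hij (Subtype.ext h)) hz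
        have h2 := (hF i.1 i.2).1
        have h3 := (hF j.1 j.2).1
        omega)
      (fun i k hk1 hk2 => hfam.occ i.1 k ((hF i.1 i.2).1.trans hk1) hk2)
      (fun x hx1 hx2 => by
        rw [← hcovF x (hα.trans hx1) (hx2.trans_le hβ)]
        exact cov_sub s' e F x)
      (fun i => (hF i.1 i.2).2.2)
    exact ⟨S, hSQ, hSW, hSp, hSl⟩
  · intro hVW
    obtain ⟨k, c, hk, hkT, hc0, hck, hc⟩ := pf_CUT w T a b hw (by linarith) (by linarith)
    have hc' : ∀ j < k, c j < c (j + 1) := fun j hj => (hc j hj).1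
    have hPIE := pf_PIE ι k Q c s' e (fun i => p (z i)) F hk hc'
      (fun i hi => by
        obtain ⟨h1, h2, _⟩ := hF i hi
        obtain ⟨h3, h4⟩ := hse i
        rw [hc0, hck]
        exact ⟨h2, h3.trans h1, h4⟩)
      (fun i => ⟨by linarith [(hp (z i)).1], (hp (z i)).2⟩)
      (fun x hx1 hx2 => hcovF x (by rwa [hc0] at hx1) (by rwa [hck] at hx2))
    have hf := wt_pieces w c k hc'
    rw [hc0, hck] at hf
    obtain ⟨j, hj, hbest⟩ := best_piece k (fun j => wt w (c j) (c (j + 1)))
      (fun j => ∑ i ∈ F with s' i < c (j + 1) ∧ c j < e i, p (z i)) T Q (wt w a b) V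
      (∑ i ∈ F, p (z i)) hk hkT hQ0 hVW hf hPIE hd
    have haj : a ≤ c j := by
      rw [← hc0]
      exact pieces_mono hc' (Nat.zero_le _) hj.le
    have hjb : c (j + 1) ≤ b := by
      rw [← hck]
      exact pieces_mono hc' hj le_rfl
    set P' := ∑ i ∈ F with s' i < c (j + 1) ∧ c j < e i, p (z i) with hP'
    have hVLE := pf_VLE ι Q (c j) (c (j + 1)) s' e (fun i => p (z i)) w F (hc' j hj) hw0
      (fun i hi => (hF i hi).2.1) (fun i => ⟨by linarith [(hp (z i)).1], (hp (z i)).2⟩)
      (fun i hi => (hF i hi).2.2)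
      (fun x hx1 hx2 => hcovF x (haj.trans hx1) (hx2.trans_le hjb))
    rw [← hP'] at hVLE
    have hPQ : (Q : ℝ) * (P' / Q) = P' := by field_simp
    refine ⟨c j, c (j + 1), P' / Q, haj, hc' j hj, hjb, ?_, ?_, ?_⟩
    · refine ⟨{i // i ∈ F.filter fun i => s' i < c (j + 1) ∧ c j < e i}, inferInstance,
        inferInstance, fun i => z i.1, fun i => max (s' i.1) (c j),
        fun i => min (e i.1) (c (j + 1)), ⟨?_, ?_, ?_⟩, ?_, ?_, ?_⟩
      · intro i
        have h1 := (mem_filter.1 i.2)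
        have h2 := hF i.1 h1.1
        have h3 := hc' j hj
        omega
      · intro i i' hii hz
        have h1 := hfam.sep i.1 i'.1 (fun h => hii (Subtype.ext h)) hz
        have h2 := (hF i.1 (mem_filter.1 i.2).1).1
        have h3 := (hF i'.1 (mem_filter.1 i'.2).1).1
        omega
      · intro i k' hk1 hk2
        have h2 := (hF i.1 (mem_filter.1 i.2).1).1
        exact hfam.occ i.1 k' (by omega) (by omega)
      · intro i
        exact ⟨le_max_right _ _, min_le_right _ _⟩
      · intro x hx1 hx2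
        have h1 : cov (fun i : {i // i ∈ F.filter fun i => s' i < c (j + 1) ∧ c j < e i} =>
            max (s' i.1) (c j)) (fun i => min (e i.1) (c (j + 1))) univ x =
            cov (fun i => max (s' i) (c j)) (fun i => min (e i) (c (j + 1)))
              (F.filter fun i => s' i < c (j + 1) ∧ c j < e i) x :=
          cov_sub (fun i => max (s' i) (c j)) (fun i => min (e i) (c (j + 1))) _ x
        rw [h1, ← hcovF x (haj.trans hx1) (hx2.trans_le hjb)]
        unfold cov
        refine Finset.card_le_card ?_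
        intro i hi
        rw [mem_filter] at hi
        rw [mem_filter, mem_filter]
        obtain ⟨g1, g2, g3⟩ := hi
        refine ⟨⟨g1, by omega, by omega⟩, ?_⟩
        dsimp only
        omega
      · rw [hPQ, hP']
        exact (Finset.sum_coe_sort (F.filter fun i => s' i < c (j + 1) ∧ c j < e i)
          (fun i => p (z i))).le
    · rw [div_le_iff₀ hQ0]
      have h4 := (hc j hj).2
      nlinarith
    · have h5 : (Q : ℝ) * (wt w a b - V - 2) ≤
          Q * (wt w (c j) (c (j + 1)) - P' / Q) := by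
        rw [mul_sub (Q : ℝ) (wt w (c j) (c (j + 1))), hPQ]
        exact hbest
      have h6 := le_of_mul_le_mul_left h5 hQ0
      linarith

end Pool.Agent.H53.SR
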