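import Pool.Agent.H53.SR.Defs
import Pool.Agent.H66.SLP.All

/-! LPC: the optimal family, with measure at most 2 per cell. -/

set_option autoImplicit false

open Finset

namespace Pool.Agent.H53.SR

open Pool.Agent.H66.SLP

theorem cov_shift {ι : Type} (s e : ι → ℕ) (a x : ℕ) (F : Finset ι) (h : ∀ i ∈ F, a ≤ s i) :
    cov (fun i => s i - a) (fun i => e i - a) F x = cov s e F (x + a) := by
  unfold cov
  congr 1
  ext i
  simp only [mem_filter]
  constructor
  · rintro ⟨h1, h2, h3⟩
    have := h i h1
    exact ⟨h1, by omega, by omega⟩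
  · rintro ⟨h1, h2, h3⟩
    have := h i h1
    exact ⟨h1, by omega, by omega⟩

theorem wt_shift (w : ℕ → ℝ) (a A B : ℕ) :
    wt (fun x => if x < a then 0 else min (w (x - a)) 2) (A + a) (B + a) =
      wt (fun x => min (w x) 2) A B := by
  unfold wt
  rw [← Finset.sum_Ico_add' _ A B a]
  refine Finset.sum_congr rfl fun x _ => ?_
  rw [if_neg (by omega), Nat.add_sub_cancel]

theorem pf_LPC : T_LPC := by
  intro ι _ _ a b Q M s e p hse hp hQM hM
  obtain ⟨F, w, s', hw, hF, hcov, hdual⟩ := lp ι (b - a) Q (fun i => s i - a)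
    (fun i => e i - a) p (fun i => by
      obtain ⟨h1, h2, h3⟩ := hse i
      constructor <;> omega) (fun i => (hp i).1)
    (fun x hx => by
      rw [cov_shift s e a x univ fun i _ => (hse i).2.1]
      exact hQM.trans (hM (x + a) (by omega) (by omega)))
  refine ⟨F, fun x => if x < a then 0 else min (w (x - a)) 2, fun i => s' i + a, ?_, ?_, ?_, ?_⟩
  · intro x
    dsimp only
    split_ifs
    · norm_num
    · exact ⟨le_min (hw _) (by norm_num), min_le_right _ _⟩
  · intro i hi
    obtain ⟨h1, h2, h3, h4⟩ := hF i hi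
    obtain ⟨g1, g2, g3⟩ := hse i
    dsimp only at h1 h2 h3 h4 ⊢
    refine ⟨by omega, by omega, ?_⟩
    have h5 : e i = (e i - a) + a := by omega
    rw [h5, wt_shift]
    by_cases hx : ∃ x ∈ Ico (s' i) (e i - a), 2 ≤ w x
    · obtain ⟨x, hx, hwx⟩ := hx
      have h6 : min (w x) 2 ≤ wt (fun x => min (w x) 2) (s' i) (e i - a) := by
        unfold wt
        exact Finset.single_le_sum (f := fun x => min (w x) 2)
          (fun y _ => le_min (hw y) (by norm_num)) hx
      rw [min_eq_right hwx] at h6
      linarith [(hp i).2]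
    · push Not at hx
      refine h4.trans (le_of_eq ?_)
      unfold wt
      refine Finset.sum_congr rfl fun x hx' => ?_
      exact (min_eq_left (hx x hx').le).symm
  · intro x hx1 hx2
    rw [← hcov (x - a) (by omega)]
    unfold cov
    congr 1
    ext i
    simp only [mem_filter]
    constructor
    · rintro ⟨h1, h2, h3⟩
      exact ⟨h1, by omega, by omega⟩
    · rintro ⟨h1, h2, h3⟩
      exact ⟨h1, by omega, by omega⟩
  · have h1 := hdual M univ fun x hx => by
      rw [cov_shift s e a x univ fun i _ => (hse i).2.1]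
      exact hM (x + a) (by omega) (by omega)
    refine le_trans ?_ h1
    have h2 : (0 : ℝ) ≤ (M : ℝ) - Q := by
      have : (Q : ℝ) ≤ M := by exact_mod_cast hQM
      linarith
    refine mul_le_mul_of_nonneg_left ?_ h2
    rcases Nat.lt_or_ge b a with h | h
    · unfold wt
      rw [Finset.Ico_eq_empty (by omega), Finset.sum_empty]
      exact Finset.sum_nonneg fun x _ => hw x
    · have h3 := wt_shift w a 0 (b - a)
      rw [Nat.zero_add, Nat.sub_add_cancel h] at h3
      rw [h3]
      unfold wt
      exact Finset.sum_le_sum fun x _ => min_le_left _ _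

end Pool.Agent.H53.SR
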