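import Mathlib

/-! NUM: the choice of the parameters. -/

set_option autoImplicit false

open Finset

namespace Pool.Agent.H53.SR


theorem pow2 (x : ℝ) (hx : 1 ≤ x) : ∃ t : ℕ, x ≤ 2 ^ t ∧ (2 : ℝ) ^ t ≤ 2 * x := by
  obtain ⟨n, h1, h2⟩ := exists_nat_pow_near hx (by norm_num : (1 : ℝ) < 2)
  refine ⟨n + 1, h2.le, ?_⟩
  rw [pow_succ]
  linarith

/-- the numbers -/
def T_NUM : Prop := ∀ ε : ℝ, 0 < ε → ∃ (δ : ℝ) (J : ℕ), 0 < δ ∧ ∀ Cf : ℕ → ℝ, ∃ C : ℝ,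
  1 ≤ C ∧ ∀ θ : ℝ, 1 ≤ θ → ∃ (n T B : ℝ) (t m : ℕ), 1 ≤ n ∧ 1 ≤ t ∧ T = 2 ^ t ∧ 1 ≤ B ∧
    (∀ R ≤ 2 * J + 1, Cf R * n ^ δ ≤ B) ∧ θ ≤ T * (T / 10) ^ J ∧
    10 ^ J * (7 * B * T * θ) ≤ 2 ^ m ∧ (2 : ℝ) ^ m ≤ C * θ ^ (1 + ε) ∧
    (2 : ℝ) ^ m ≤ n ^ (10 : ℕ) ∧ θ + T + 4 + 10 * J ≤ n ∧
    ∀ R ≤ 2 * J + 1, θ + T + 4 + 10 * J + R * Cf R ≤ θ + C * θ ^ ε

theorem pf_NUM : T_NUM := by
  intro ε hε
  set δ : ℝ := min ε 1 / 2 with hδ
  have hδ0 : 0 < δ := by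
    have : 0 < min ε 1 := lt_min hε one_pos
    positivity
  have hδ1 : 2 * δ ≤ 1 := by linarith [min_le_right ε 1]
  have hδε : 2 * δ ≤ ε := by linarith [min_le_left ε 1]
  set J : ℕ := ⌈1 / δ⌉₊ with hJ
  have hJ1 : 1 ≤ δ * J := by
    have := Nat.le_ceil (1 / δ)
    rw [div_le_iff₀ hδ0] at this
    linarith
  refine ⟨δ, J, hδ0, fun Cf => ?_⟩
  set C₁ : ℝ := ∑ R ∈ range (2 * J + 2), |Cf R| with hC₁
  have hC0 : 0 ≤ C₁ := Finset.sum_nonneg fun _ _ => abs_nonneg _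
  have hCf : ∀ R ≤ 2 * J + 1, Cf R ≤ C₁ := by
    intro R hR
    refine (le_abs_self _).trans ?_
    exact Finset.single_le_sum (f := fun R => |Cf R|) (fun _ _ => abs_nonneg _)
      (mem_range.2 (by omega))
  have h10J : (1 : ℝ) ≤ 10 ^ J := one_le_pow₀ (by norm_num)
  set A : ℝ := 10 ^ J * 1000 * (C₁ + 1) + 69 + 10 * J with hA
  have hA1 : 10 ^ J * 1000 * (C₁ + 1) ≤ A := by
    have : (0 : ℝ) ≤ 10 * J := by positivity
    linarith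
  have hA2 : 69 + 10 * J ≤ A := by
    have : (0 : ℝ) ≤ 10 ^ J * 1000 * (C₁ + 1) := by positivity
    linarith
  have hJ0 : (0 : ℝ) ≤ J := Nat.cast_nonneg _
  have hA69 : 69 ≤ A := by linarith
  set C : ℝ := A ^ 2 + (2 * J + 1) * C₁ with hC
  refine ⟨C, ?_, ?_⟩
  · have : 0 ≤ (2 * (J : ℝ) + 1) * C₁ := by positivity
    nlinarith
  intro θ hθ
  have hθ0 : 0 < θ := by linarith
  have hx1 : 1 ≤ θ ^ δ := Real.one_le_rpow hθ hδ0.le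
  have hxθ : θ ^ δ ≤ θ := by
    calc θ ^ δ ≤ θ ^ (1 : ℝ) := Real.rpow_le_rpow_of_exponent_le hθ (by linarith)
      _ = θ := Real.rpow_one θ
  obtain ⟨t, ht1, ht2⟩ := pow2 (32 * θ ^ δ) (by linarith)
  have hn1 : 1 ≤ A * θ := by nlinarith
  have hnδ1 : 1 ≤ (A * θ) ^ δ := Real.one_le_rpow hn1 hδ0.le
  have hB1 : 1 ≤ (C₁ + 1) * (A * θ) ^ δ := by nlinarith
  set B : ℝ := (C₁ + 1) * (A * θ) ^ δ with hB
  have hX1 : 1 ≤ 10 ^ J * (7 * B * 2 ^ t * θ) := by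
    have h1 : (1 : ℝ) ≤ 2 ^ t := one_le_pow₀ (by norm_num)
    have h2 : 1 ≤ B * 2 ^ t := one_le_mul_of_one_le_of_one_le hB1 h1
    have h3 : 1 ≤ B * 2 ^ t * θ := one_le_mul_of_one_le_of_one_le h2 hθ
    have h4 : 1 ≤ 7 * B * 2 ^ t * θ := by nlinarith
    exact one_le_mul_of_one_le_of_one_le h10J h4
  obtain ⟨m, hm1, hm2⟩ := pow2 _ hX1
  have hm3 : (2 : ℝ) ^ m ≤ A ^ 2 * θ ^ (1 + 2 * δ) := by
    refine hm2.trans ?_
    have h1 : (A * θ) ^ δ ≤ A * θ ^ δ := by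
      rw [Real.mul_rpow (by linarith) hθ0.le]
      refine mul_le_mul_of_nonneg_right ?_ (by linarith)
      calc A ^ δ ≤ A ^ (1 : ℝ) :=
            Real.rpow_le_rpow_of_exponent_le (by linarith) (by linarith)
        _ = A := Real.rpow_one A
    have h2 : θ ^ (1 + 2 * δ) = θ * (θ ^ δ * θ ^ δ) := by
      rw [show 1 + 2 * δ = 1 + (δ + δ) by ring, Real.rpow_add hθ0, Real.rpow_add hθ0,
        Real.rpow_one]
    rw [h2]
    have h3 : B ≤ (C₁ + 1) * (A * θ ^ δ) := mul_le_mul_of_nonneg_left h1 (by linarith)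
    have h4 : B * 2 ^ t ≤ (C₁ + 1) * (A * θ ^ δ) * (2 * (32 * θ ^ δ)) :=
      mul_le_mul h3 ht2 (by positivity) (by positivity)
    have h5 : B * 2 ^ t * θ ≤ (C₁ + 1) * (A * θ ^ δ) * (2 * (32 * θ ^ δ)) * θ :=
      mul_le_mul_of_nonneg_right h4 hθ0.le
    have h6 : 2 * (10 ^ J * (7 * B * 2 ^ t * θ)) ≤
        2 * (10 ^ J * (7 * ((C₁ + 1) * (A * θ ^ δ) * (2 * (32 * θ ^ δ)) * θ))) := by
      have h7 : (0 : ℝ) ≤ 10 ^ J := by positivity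
      have h8 : 10 ^ J * (7 * B * 2 ^ t * θ) ≤
          10 ^ J * (7 * ((C₁ + 1) * (A * θ ^ δ) * (2 * (32 * θ ^ δ)) * θ)) :=
        mul_le_mul_of_nonneg_left (by linarith) h7
      linarith
    refine h6.trans ?_
    have h9 : 2 * (10 ^ J * (7 * ((C₁ + 1) * (A * θ ^ δ) * (2 * (32 * θ ^ δ)) * θ))) =
        (10 ^ J * 896 * (C₁ + 1)) * (A * (θ * (θ ^ δ * θ ^ δ))) := by ring
    rw [h9]
    have h10 : 10 ^ J * 896 * (C₁ + 1) ≤ A := by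
      refine le_trans ?_ hA1
      have : (0 : ℝ) ≤ 10 ^ J * (C₁ + 1) := by positivity
      nlinarith
    have h11 : (0 : ℝ) ≤ A * (θ * (θ ^ δ * θ ^ δ)) := by positivity
    have h12 := mul_le_mul_of_nonneg_right h10 h11
    linarith
  have hT : (2 : ℝ) ^ t ≤ 64 * θ ^ δ := by linarith
  refine ⟨A * θ, 2 ^ t, B, t, m, hn1, ?_, rfl, hB1, ?_, ?_, hm1, ?_, ?_, ?_, ?_⟩
  · by_contra h
    have ht0 : t = 0 := by omega
    rw [ht0, pow_zero] at ht1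
    linarith
  · intro R hR
    refine mul_le_mul_of_nonneg_right ?_ (by linarith)
    linarith [hCf R hR]
  · have h1 : θ ^ δ ≤ 2 ^ t / 10 := by
      rw [le_div_iff₀ (by norm_num)]
      linarith
    have h2 : θ ≤ (2 ^ t / 10 : ℝ) ^ J := by
      calc θ = θ ^ (1 : ℝ) := (Real.rpow_one θ).symm
        _ ≤ θ ^ (δ * J) := Real.rpow_le_rpow_of_exponent_le hθ hJ1
        _ = (θ ^ δ) ^ J := by rw [Real.rpow_mul hθ0.le, Real.rpow_natCast]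
        _ ≤ (2 ^ t / 10 : ℝ) ^ J := pow_le_pow_left₀ (by linarith) h1 J
    have h3 : (1 : ℝ) ≤ 2 ^ t := one_le_pow₀ (by norm_num)
    have h4 : 0 ≤ (2 ^ t / 10 : ℝ) ^ J := by positivity
    nlinarith
  · refine hm3.trans ?_
    have h1 : θ ^ (1 + 2 * δ) ≤ θ ^ (1 + ε) :=
      Real.rpow_le_rpow_of_exponent_le hθ (by linarith)
    have h2 : A ^ 2 ≤ C := by
      have : 0 ≤ (2 * (J : ℝ) + 1) * C₁ := by positivity
      linarith
    exact mul_le_mul h2 h1 (by positivity) (by nlinarith)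
  · refine hm3.trans ?_
    rw [mul_pow]
    have h1 : θ ^ (1 + 2 * δ) ≤ θ ^ (10 : ℕ) := by
      rw [← Real.rpow_natCast θ 10]
      refine Real.rpow_le_rpow_of_exponent_le hθ ?_
      push_cast
      linarith
    have h2 : A ^ 2 ≤ A ^ 10 := pow_le_pow_right₀ (by linarith) (by norm_num)
    exact mul_le_mul h2 h1 (by positivity) (by positivity)
  · have h1 : (69 + 10 * J) * θ ≤ A * θ := mul_le_mul_of_nonneg_right hA2 hθ0.le
    have h2 : 4 + 10 * (J : ℝ) ≤ (4 + 10 * J) * θ := by nlinarith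
    nlinarith
  · intro R hR
    have h1 : (R : ℝ) * Cf R ≤ (2 * J + 1) * C₁ := by
      have h2 : (R : ℝ) ≤ 2 * J + 1 := by exact_mod_cast hR
      have h3 : (0 : ℝ) ≤ R := Nat.cast_nonneg _
      have h4 := hCf R hR
      calc (R : ℝ) * Cf R ≤ R * C₁ := mul_le_mul_of_nonneg_left h4 h3
        _ ≤ (2 * J + 1) * C₁ := mul_le_mul_of_nonneg_right h2 hC0
    have h5 : θ ^ δ ≤ θ ^ ε := Real.rpow_le_rpow_of_exponent_le hθ (by linarith)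
    have h6 : 1 ≤ θ ^ ε := Real.one_le_rpow hθ hε.le
    have h7 : (68 + 10 * J + (2 * J + 1) * C₁) * θ ^ ε ≤ C * θ ^ ε := by
      refine mul_le_mul_of_nonneg_right ?_ (by linarith)
      nlinarith
    have h8 : 0 ≤ 4 + 10 * J + (2 * J + 1) * C₁ := by positivity
    have h9 : 4 + 10 * J + (2 * J + 1) * C₁ ≤ (4 + 10 * J + (2 * J + 1) * C₁) * θ ^ ε := by
      nlinarith
    nlinarith

end Pool.Agent.H53.SR
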